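import Pool.Agent.H56CES.PolyTime

/-!
# MP_bd0f13: coalition-exchange-stable matchings with almost common lists of the women

Deciding whether a stable marriage instance with complete preference lists has a
coalition-exchange-stable matching is NP-complete even if all women rank the men in one common
order, up to the first two entries of their lists.
-/

set_option autoImplicit false

namespace Pool.Agent.Results.MP_bd0f13_lc.AlmostCommonLists

open Pool.Agent.NPC Pool.Agent.NPC.H56CES

/-- The decision problem `HasStable` is in `NP` and `NP`-hard; every language in `NP` reduces in
polynomial time to instances with almost common lists of the women; and a polynomial-time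
algorithm for the search problem on these instances would show `P = NP`. -/
theorem result :
    (InNPP HasStable ∧ NPHardP HasStable) ∧
    (∀ L : Set (List Bool), InNP L → ∃ f : List Bool → Inst,
      PolyTime (fun x => bits (f x)) ∧ (∀ x, IsInstance (f x) ∧ AlmostCommon (f x)) ∧
        ∀ x, x ∈ L ↔ ∃ M : Equiv.Perm (Fin (f x).1.length), CoalitionExchangeStable (f x) M) ∧
    ((∃ F : List Bool → List Bool, PolyTime F ∧ SolvesSearch F) →
      ∀ L : Set (List Bool), InNP L → InP L) :=
  ⟨⟨inNPP_stable, hardPr_stable.toHardI.toNPHardP⟩, many_one, search_hard⟩

end Pool.Agent.Results.MP_bd0f13_lc.AlmostCommonLists
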